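import Mathlib
import Pool.Agent.H.MP_b13872_an.C

set_option autoImplicit false

namespace Pool.Agent.Results.MP_b13872_an.Full

open Polynomial

/-- only real zeros (the zero polynomial counts, as usual) -/
def RealRooted (p : ℝ[X]) : Prop := p = 0 ∨ ∀ z : ℂ, aeval z p = 0 → z.im = 0

/-- multiplier sequence in the sense of Polya and Schur -/
def IsMultiplier (γ : ℕ → ℝ) : Prop :=
  ∀ p : ℝ[X], RealRooted p →
    RealRooted (∑ k ∈ Finset.range (p.natDegree + 1), C (γ k * p.coeff k) * X ^ k)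

theorem ms_iff (γ : ℕ → ℝ) : IsMultiplier γ ↔ Pool.Agent.H.MP_b13872_an.MS γ := by
  constructor
  · intro h p q hp hq
    have e : q = Pool.Agent.H.MP_b13872_an.act γ p := by
      ext k; rw [hq, Pool.Agent.H.MP_b13872_an.act_coeff]
    rw [e, Pool.Agent.H.MP_b13872_an.splits_iff]
    exact h p ((Pool.Agent.H.MP_b13872_an.splits_iff p).1 hp)
  · intro h p hp
    exact (Pool.Agent.H.MP_b13872_an.splits_iff _).1
      (h p _ ((Pool.Agent.H.MP_b13872_an.splits_iff p).2 hp)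
        (Pool.Agent.H.MP_b13872_an.act_coeff γ p))

theorem result (Ψ : ℝ × ℝ → ℝ) :
    (∀ α β : ℕ → ℝ, IsMultiplier α → IsMultiplier β → (∀ k, 0 ≤ α k) → (∀ k, 0 ≤ β k) →
      IsMultiplier (fun k => Ψ (α k, β k))) ↔
    ∃ (c : ℝ) (m n : ℕ), ∀ x y : ℝ, 0 ≤ x → 0 ≤ y → Ψ (x, y) = c * x ^ m * y ^ n := by
  simp only [ms_iff]
  exact Pool.Agent.H.MP_b13872_an.adm_iff (fun x y => Ψ (x, y))

end Pool.Agent.Results.MP_b13872_an.Full
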